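import Mathlib
import Pool.Agent.V11158.HeisSetup

open scoped Pointwise
open Pool.Agent.V11158.HeisSetup

namespace Pool.Agent.Results.MP_6a66b4_co.HeisenbergGrid

/-- The elements of the Heisenberg group `H(ℝ)`. -/
@[ext] structure Heis where
  x : ℝ
  y : ℝ
  z : ℝ

namespace Heis

instance : Mul Heis := ⟨fun a b => ⟨a.x + b.x, a.y + b.y, a.z + b.z + a.x * b.y⟩⟩

instance : One Heis := ⟨⟨0, 0, 0⟩⟩

instance : Inv Heis := ⟨fun a => ⟨-a.x, -a.y, -a.z + a.x * a.y⟩⟩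

@[simp] lemma mul_x (a b : Heis) : (a * b).x = a.x + b.x := rfl
@[simp] lemma mul_y (a b : Heis) : (a * b).y = a.y + b.y := rfl
@[simp] lemma mul_z (a b : Heis) : (a * b).z = a.z + b.z + a.x * b.y := rfl
@[simp] lemma one_x : (1 : Heis).x = 0 := rfl
@[simp] lemma one_y : (1 : Heis).y = 0 := rfl
@[simp] lemma one_z : (1 : Heis).z = 0 := rfl
@[simp] lemma inv_x (a : Heis) : (a⁻¹).x = -a.x := rfl
@[simp] lemma inv_y (a : Heis) : (a⁻¹).y = -a.y := rfl
@[simp] lemma inv_z (a : Heis) : (a⁻¹).z = -a.z + a.x * a.y := rfl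

/-- The Heisenberg group law `(x,y,z) * (x',y',z') = (x + x', y + y', z + z' + x y')`. -/
instance : Group Heis :=
  Group.ofLeftAxioms
    (fun a b c => by ext <;> simp <;> ring)
    (fun a => by ext <;> simp)
    (fun a => by ext <;> simp)

end Heis

/-- `B` is a `K`-approximate group: symmetric, containing `1`, and `B * B` is covered by at most
`K` left translates of `B`. -/
def IsApproximateGroup {G : Type} [Group G] (K : ℝ) (B : Set G) : Prop :=
  1 ∈ B ∧ B⁻¹ = B ∧ ∃ T : Finset G, (T.card : ℝ) ≤ K ∧ B * B ⊆ (T : Set G) * B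

/-- The cocycle `∂φ(x, y) = φ(y)⁻¹ φ(x)⁻¹ φ(x y)`. -/
noncomputable def cocycle {G : Type} [Group G] (φ : G → Heis) (x y : G) : Heis :=
  (φ y)⁻¹ * (φ x)⁻¹ * φ (x * y)

/-- `(G, B, φ)` is admissible of order `m`. For `m = 1` this is the notion of the problem; for
larger `m` the map `φ` is defined on the power `B ^ m` and the cocycle condition is required there
(the values of `φ` outside `B ^ m` are irrelevant). -/
structure Admissible {G : Type} [Group G] (K : ℝ) (N m : ℕ) (B : Set G) (φ : G → Heis) :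
    Prop where
  approx : IsApproximateGroup K B
  bounded : ∀ b ∈ B, (∃ i : ℤ, (φ b).x = i / N) ∧ (∃ j : ℤ, (φ b).y = j / N) ∧
    |(φ b).x| ≤ 10 ∧ |(φ b).y| ≤ 10 ∧ |(φ b).z| ≤ 10
  grid : ∀ i j : ℤ, |(i : ℝ) / N| ≤ 1 → |(j : ℝ) / N| ≤ 1 → ∃ z : ℝ, |z| ≤ 10 ∧
    (⟨i / N, j / N, z⟩ : Heis) ∈ φ '' B
  cocycle_small : ∀ x ∈ B ^ m, ∀ y ∈ B ^ m, x * y ∈ B ^ m → (cocycle φ x y).x = 0 ∧
    (cocycle φ x y).y = 0 ∧ |(cocycle φ x y).z| ≤ 10 / N

/-! ### admissibility of order 27 -/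

lemma phi_mul {G : Type} [Group G] (φ : G → Heis) (x y : G) :
    φ (x * y) = φ x * φ y * cocycle φ x y := by
  unfold cocycle
  group

theorem robust (K : ℝ) (C : ℕ) : ∃ N₀ : ℕ, ∀ N : ℕ, N₀ ≤ N → ∀ (G : Type) [Group G] (B : Set G)
    (φ : G → Heis), Admissible K N 27 B φ → ((C * N ^ 3 : ℕ) : ℕ∞) < B.encard := by
  set κ : ℕ := ⌊K⌋₊ with hκ
  refine ⟨1681 * κ ^ 4 * (κ ^ 26 * C * 161 + 1) ^ (2 + κ ^ 14 * C * 223 + 101) + 1, ?_⟩
  intro N hN G _ B φ hA
  by_contra hcon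
  rw [not_lt] at hcon
  have hfin : B.Finite := by
    rw [← Set.encard_lt_top_iff]
    exact lt_of_le_of_lt hcon (ENat.natCast_lt_top _)
  have hcard : B.ncard ≤ C * N ^ 3 := by
    rw [← hfin.cast_ncard_eq] at hcon
    exact_mod_cast hcon
  have hN1 : 1 ≤ N := by omega
  have hNR : (0 : ℝ) < N := by exact_mod_cast hN1
  obtain ⟨h1, hinv, T, hT, hcov⟩ := hA.approx
  have hle : ∀ i : ℤ, |i| ≤ N → |(i : ℝ) / N| ≤ 1 := by
    intro i hi
    rw [abs_div, abs_of_pos hNR, div_le_one hNR]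
    exact_mod_cast hi
  have hgrid : ∀ i j : ℤ, ∃ b : G, |i| ≤ N → |j| ≤ N → b ∈ B ∧ (φ b).x = i / N ∧
      (φ b).y = j / N := by
    intro i j
    by_cases h : |i| ≤ N ∧ |j| ≤ N
    · obtain ⟨z, _, b, hb, hz⟩ := hA.grid i j (hle i h.1) (hle j h.2)
      exact ⟨b, fun _ _ => ⟨hb, by rw [hz], by rw [hz]⟩⟩
    · exact ⟨1, fun h1 h2 => absurd ⟨h1, h2⟩ h⟩
  choose gp hgp using hgrid
  have hmul : ∀ g ∈ B ^ 27, ∀ h ∈ B ^ 27, g * h ∈ B ^ 27 →
      (φ (g * h)).x = (φ g).x + (φ h).x ∧ (φ (g * h)).y = (φ g).y + (φ h).y ∧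
      |(φ (g * h)).z - ((φ g).z + (φ h).z + (φ g).x * (φ h).y)| ≤ 10 / N := by
    intro g hg h hh hgh
    obtain ⟨c1, c2, c3⟩ := hA.cocycle_small g hg h hh hgh
    rw [phi_mul φ g h]
    simp only [Heis.mul_x, Heis.mul_y, Heis.mul_z, c1, c2, mul_zero, add_zero]
    refine ⟨trivial, trivial, ?_⟩
    rw [add_sub_cancel_left]
    exact c3
  let S : Setup G κ C N :=
    { B := B
      X := fun g => (φ g).x
      Y := fun g => (φ g).y
      Z := fun g => (φ g).z
      one_mem := h1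
      inv := hinv
      fin := hfin
      card := hcard
      T := T
      cardT := Nat.le_floor hT
      cover := hcov
      Npos := hN1
      gp := gp
      gp_mem := fun i j hi hj => (hgp i j hi hj).1
      gp_X := fun i j hi hj => (hgp i j hi hj).2.1
      gp_Y := fun i j hi hj => (hgp i j hi hj).2.2
      int := fun b hb => ⟨(hA.bounded b hb).1, (hA.bounded b hb).2.1⟩
      bX := fun b hb => (hA.bounded b hb).2.2.1
      bY := fun b hb => (hA.bounded b hb).2.2.2.1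
      bZ := fun b hb => (hA.bounded b hb).2.2.2.2
      hX := fun g hg h hh hgh => (hmul g hg h hh hgh).1
      hY := fun g hg h hh hgh => (hmul g hg h hh hgh).2.1
      hZ := fun g hg h hh hgh => (hmul g hg h hh hgh).2.2 }
  have hb := S.bound
  generalize 1681 * κ ^ 4 * (κ ^ 26 * C * 161 + 1) ^ (2 + κ ^ 14 * C * 223 + 101) = P at hb hN
  have h2 : N ≤ (2 * N + 1) ^ 2 := by nlinarith
  exact absurd (hN.trans (h2.trans hb)) (by omega)

/-! ### admissibility of order 1 -/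

section example1

variable (N : ℕ)

/-- the finite abelian group `(ℤ/(2N+1))²` -/
abbrev Γ : Type := ZMod (2 * N + 1) × ZMod (2 * N + 1)

/-- the group `ℤ × (ℤ/(2N+1))²`, written multiplicatively -/
abbrev GG : Type := Multiplicative (ℤ × Γ N)

/-- an element from its components -/
def mk (t : ℤ) (γ : Γ N) : GG N := Multiplicative.ofAdd (t, γ)

lemma mk_mul (t t' : ℤ) (γ γ' : Γ N) : mk N t γ * mk N t' γ' = mk N (t + t') (γ + γ') := rfl

lemma mk_inv (t : ℤ) (γ : Γ N) : (mk N t γ)⁻¹ = mk N (-t) (-γ) := rfl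

lemma mk_one : (1 : GG N) = mk N 0 0 := rfl

lemma mk_inj {t t' : ℤ} {γ γ' : Γ N} (h : mk N t γ = mk N t' γ') : t = t' ∧ γ = γ' := by
  have := Multiplicative.ofAdd.injective h
  exact ⟨congrArg Prod.fst this, congrArg Prod.snd this⟩

/-- the approximate group -/
def BB : Set (GG N) := {1} ∪ Set.range (mk N 1) ∪ Set.range (mk N (-1))

/-- the point of the grid belonging to `γ` -/
noncomputable def pt (γ : Γ N) : Heis := ⟨(γ.1.valMinAbs : ℝ) / N, (γ.2.valMinAbs : ℝ) / N, 0⟩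

/-- the map -/
noncomputable def ff (g : GG N) : Heis :=
  if (Multiplicative.toAdd g).1 = 1 then pt N (Multiplicative.toAdd g).2
  else if (Multiplicative.toAdd g).1 = -1 then (pt N (-(Multiplicative.toAdd g).2))⁻¹ else 1

lemma ff_one : ff N 1 = 1 := by
  unfold ff
  simp

lemma ff_pos (γ : Γ N) : ff N (mk N 1 γ) = pt N γ := by
  unfold ff mk
  simp

lemma ff_neg (γ : Γ N) : ff N (mk N (-1) γ) = (pt N (-γ))⁻¹ := by
  unfold ff mk
  rw [if_neg (by simp), if_pos (by simp)]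
  simp

variable {N}

lemma pt_bound (hN : 1 ≤ N) (γ : Γ N) : |(pt N γ).x| ≤ 1 ∧ |(pt N γ).y| ≤ 1 := by
  have hNR : (0 : ℝ) < N := by exact_mod_cast hN
  have key : ∀ a : ZMod (2 * N + 1), |(a.valMinAbs : ℝ) / N| ≤ 1 := by
    intro a
    have h := ZMod.natAbs_valMinAbs_le a
    rw [abs_div, abs_of_pos hNR, div_le_one hNR]
    have h2 : |a.valMinAbs| ≤ N := by
      rw [Int.abs_eq_natAbs]
      omega
    exact_mod_cast h2
  exact ⟨key _, key _⟩

lemma valMinAbs_int {i : ℤ} (hi : |i| ≤ N) : ((i : ZMod (2 * N + 1))).valMinAbs = i := by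
  rw [ZMod.valMinAbs_spec]
  refine ⟨rfl, ?_⟩
  rw [abs_le] at hi
  constructor
  · push_cast
    omega
  · push_cast
    omega

lemma one_mem_BB : (1 : GG N) ∈ BB N := Or.inl (Or.inl rfl)

lemma pos_mem_BB (γ : Γ N) : mk N 1 γ ∈ BB N := Or.inl (Or.inr ⟨γ, rfl⟩)

lemma neg_mem_BB (γ : Γ N) : mk N (-1) γ ∈ BB N := Or.inr ⟨γ, rfl⟩

lemma inv_mem_BB {g : GG N} (hg : g ∈ BB N) : g⁻¹ ∈ BB N := by
  rcases hg with (hg | ⟨γ, rfl⟩) | ⟨γ, rfl⟩
  · rw [Set.mem_singleton_iff.mp hg, inv_one]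
    exact one_mem_BB
  · rw [mk_inv]
    exact neg_mem_BB _
  · rw [mk_inv, neg_neg]
    exact pos_mem_BB _

lemma eq_mk_of_mem {g : GG N} (hg : g ∈ BB N) : ∃ (t : ℤ) (γ : Γ N), -1 ≤ t ∧ t ≤ 1 ∧
    g = mk N t γ ∧ (t = 0 → g = 1) := by
  rcases hg with (hg | ⟨γ, rfl⟩) | ⟨γ, rfl⟩
  · exact ⟨0, 0, by norm_num, by norm_num, Set.mem_singleton_iff.mp hg,
      fun _ => Set.mem_singleton_iff.mp hg⟩
  · exact ⟨1, γ, by norm_num, by norm_num, rfl, fun h => absurd h (by norm_num)⟩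
  · exact ⟨-1, γ, by norm_num, by norm_num, rfl, fun h => absurd h (by norm_num)⟩

lemma BB_approx : IsApproximateGroup 5 (BB N) := by
  classical
  refine ⟨one_mem_BB, ?_, (Finset.Icc (-3 : ℤ) 1).image (fun t => mk N t 0), ?_, ?_⟩
  · ext g
    rw [Set.mem_inv]
    exact ⟨fun h => by simpa using inv_mem_BB h, fun h => inv_mem_BB h⟩
  · have h1 : ((Finset.Icc (-3 : ℤ) 1).image (fun t => mk N t 0)).card ≤ 5 :=
      Finset.card_image_le.trans (by simp)
    exact_mod_cast h1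
  · rintro _ ⟨g, hg, h, hh, rfl⟩
    obtain ⟨t, γ, h1, h2, rfl, -⟩ := eq_mk_of_mem hg
    obtain ⟨t', γ', h1', h2', rfl, -⟩ := eq_mk_of_mem hh
    refine ⟨mk N (t + t' - 1) 0, ?_, mk N 1 (γ + γ'), pos_mem_BB _, ?_⟩
    · rw [Finset.mem_coe, Finset.mem_image]
      exact ⟨t + t' - 1, Finset.mem_Icc.mpr ⟨by omega, by omega⟩, rfl⟩
    · simp only [mk_mul]
      congr 1
      · ring
      · rw [zero_add]

lemma cocycle_eq {x y : GG N} (hx : x ∈ BB N) (hy : y ∈ BB N) (hxy : x * y ∈ BB N) :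
    cocycle (ff N) x y = 1 := by
  by_cases h1 : x = 1
  · subst h1
    unfold cocycle
    rw [one_mul, ff_one, inv_one, mul_one, inv_mul_cancel]
  by_cases h2 : y = 1
  · subst h2
    unfold cocycle
    rw [mul_one, ff_one, inv_one, one_mul, inv_mul_cancel]
  obtain ⟨s, σ, hs1, hs2, hxs, hs0⟩ := eq_mk_of_mem hx
  obtain ⟨t, τ, ht1, ht2, hyt, ht0⟩ := eq_mk_of_mem hy
  obtain ⟨u, υ, hu1, hu2, hxyu, hu0⟩ := eq_mk_of_mem hxy
  have hs : s ≠ 0 := fun h => h1 (hs0 h)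
  have ht : t ≠ 0 := fun h => h2 (ht0 h)
  have hsum : s + t = u := by
    have := hxyu
    rw [hxs, hyt, mk_mul] at this
    exact (mk_inj N this).1
  have hu : u = 0 := by omega
  have hxy1 := hu0 hu
  have hyx : y = x⁻¹ := by
    rw [eq_inv_iff_mul_eq_one, mul_comm]
    exact hxy1
  have key : ff N y = (ff N x)⁻¹ := by
    rw [hyx, hxs, mk_inv]
    rcases (by omega : s = 1 ∨ s = -1) with rfl | rfl
    · rw [ff_pos, ff_neg, neg_neg]
    · rw [ff_neg, neg_neg, ff_pos, inv_inv]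
  unfold cocycle
  rw [hxy1, ff_one, key, inv_inv, mul_one, mul_inv_cancel]

lemma BB_card (hN : 1 ≤ N) : (BB N).Finite ∧ (BB N).ncard ≤ 19 * N ^ 2 := by
  have hr : ∀ t : ℤ, (Set.range (mk N t)).Finite ∧ (Set.range (mk N t)).ncard ≤ (2 * N + 1) ^ 2 := by
    intro t
    refine ⟨Set.finite_range _, ?_⟩
    rw [← Set.image_univ]
    refine (Set.ncard_image_le Set.finite_univ).trans ?_
    rw [Set.ncard_univ, Nat.card_eq_fintype_card, Fintype.card_prod, ZMod.card, pow_two]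
  refine ⟨((Set.finite_singleton _).union (hr 1).1).union (hr (-1)).1, ?_⟩
  calc (BB N).ncard ≤ ({1} ∪ Set.range (mk N 1) : Set (GG N)).ncard +
        (Set.range (mk N (-1))).ncard := Set.ncard_union_le _ _
    _ ≤ (({1} : Set (GG N)).ncard + (Set.range (mk N 1)).ncard) + (2 * N + 1) ^ 2 :=
        Nat.add_le_add (Set.ncard_union_le _ _) (hr (-1)).2
    _ ≤ (1 + (2 * N + 1) ^ 2) + (2 * N + 1) ^ 2 := by
        rw [Set.ncard_singleton]
        exact Nat.add_le_add_right (Nat.add_le_add_left (hr 1).2 _) _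
    _ ≤ 19 * N ^ 2 := by nlinarith

theorem admissible_BB (hN : 1 ≤ N) : Admissible 5 N 1 (BB N) (ff N) := by
  have hNR : (0 : ℝ) < N := by exact_mod_cast hN
  refine ⟨BB_approx, ?_, ?_, ?_⟩
  · rintro b ((hb | ⟨γ, rfl⟩) | ⟨γ, rfl⟩)
    · rw [Set.mem_singleton_iff.mp hb, ff_one]
      refine ⟨⟨0, by simp⟩, ⟨0, by simp⟩, by simp, by simp, by simp⟩
    · rw [ff_pos]
      obtain ⟨h1, h2⟩ := pt_bound hN γ
      refine ⟨⟨_, rfl⟩, ⟨_, rfl⟩, by linarith, by linarith, ?_⟩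
      simp [pt]
    · rw [ff_neg]
      obtain ⟨h1, h2⟩ := pt_bound hN (-γ)
      refine ⟨⟨-((-γ).1.valMinAbs), ?_⟩, ⟨-((-γ).2.valMinAbs), ?_⟩, ?_, ?_, ?_⟩
      · simp only [Heis.inv_x, pt]
        push_cast
        ring
      · simp only [Heis.inv_y, pt]
        push_cast
        ring
      · rw [Heis.inv_x, abs_neg]
        linarith
      · rw [Heis.inv_y, abs_neg]
        linarith
      · rw [Heis.inv_z]
        have h3 : (pt N (-γ)).z = 0 := rfl
        rw [h3, neg_zero, zero_add, abs_mul]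
        nlinarith [abs_nonneg (pt N (-γ)).x, abs_nonneg (pt N (-γ)).y]
  · intro i j hi hj
    have hi' : |i| ≤ N := by
      rw [abs_div, abs_of_pos hNR, div_le_one hNR] at hi
      exact_mod_cast hi
    have hj' : |j| ≤ N := by
      rw [abs_div, abs_of_pos hNR, div_le_one hNR] at hj
      exact_mod_cast hj
    refine ⟨0, by simp, mk N 1 ((i : ZMod (2 * N + 1)), (j : ZMod (2 * N + 1))), pos_mem_BB _, ?_⟩
    rw [ff_pos]
    unfold pt
    simp only
    rw [valMinAbs_int hi', valMinAbs_int hj']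
  · intro x hx y hy hxy
    rw [pow_one] at hx hy hxy
    rw [cocycle_eq hx hy hxy]
    refine ⟨rfl, rfl, ?_⟩
    rw [Heis.one_z, abs_zero]
    positivity

end example1

/-- **(1)** With the cocycle condition on `B` only (as in the problem), there are admissible
triples with `|B| ≤ 19 N²` for `K = 5` and every `N ≥ 1`; so `m_K(N)/N³` tends to `0`, not to
infinity. **(2)** If the cocycle condition holds on the power `B ^ 27`, then for all `K` and `C`
and all large `N` every admissible triple has `|B| > C N³`. -/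
theorem result :
    (∀ N : ℕ, 1 ≤ N → ∃ (G : Type) (_ : Group G) (B : Set G) (φ : G → Heis),
      Admissible 5 N 1 B φ ∧ B.Finite ∧ B.ncard ≤ 19 * N ^ 2) ∧
    (∀ (K : ℝ) (C : ℕ), ∃ N₀ : ℕ, ∀ N : ℕ, N₀ ≤ N → ∀ (G : Type) [Group G] (B : Set G)
      (φ : G → Heis), Admissible K N 27 B φ → ((C * N ^ 3 : ℕ) : ℕ∞) < B.encard) :=
  ⟨fun N hN => ⟨GG N, inferInstance, BB N, ff N, admissible_BB hN, (BB_card hN).1, (BB_card hN).2⟩,
    robust⟩

end Pool.Agent.Results.MP_6a66b4_co.HeisenbergGrid
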